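import Mathlib
import Pool.Agent.LRY.Stmts

set_option autoImplicit false

/-! Row THQ of the squad LRY: the generator is determined by the first units. -/

open Polynomial NumberField
open Pool.Agent.LRG Pool.Agent.LRN
open Pool.Agent.LRG.E (Ro Fa fac st rep mu ex)

namespace Pool.Agent.LRY.H95

open Pool.Agent.LRY Pool.Agent.LRG.E

theorem aeval_inl {r₁ r₂ : ℕ} (a : Fa r₁ r₂ → ℤ) (c : Fin r₂ → ℤ) {K : Type} [Field K]
    (θ : K) (i : Fin r₁) : aeval θ (gq a c (Sum.inl i)) = θ - (a (Sum.inl i) : K) := by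
  simp [gq]

theorem aeval_inr {r₁ r₂ : ℕ} (a : Fa r₁ r₂ → ℤ) (c : Fin r₂ → ℤ) {K : Type} [Field K]
    (θ : K) (j : Fin r₂) : aeval θ (gq a c (Sum.inr j)) =
      θ ^ 2 - (2 * (a (Sum.inr j) : K)) * θ + ((a (Sum.inr j) : K) ^ 2 + (c j : K)) := by
  simp only [gq, Sum.elim_inr, map_add, map_sub, map_mul, map_pow, aeval_X, eq_intCast,
    map_ofNat, map_intCast]

theorem not_rat {K : Type} [Field K] [NumberField K] {θ : K}
    (hgen : IntermediateField.adjoin ℚ {θ} = ⊤) (hd : Module.finrank ℚ K ≠ 1) (q : ℚ)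
    (h : θ = (q : K)) : False := by
  have h1 : θ ∈ (⊥ : IntermediateField ℚ K) := by
    rw [IntermediateField.mem_bot]
    exact ⟨q, by rw [h]; simp⟩
  rw [← IntermediateField.adjoin_simple_eq_bot_iff, hgen] at h1
  exact hd (IntermediateField.bot_eq_top_iff_finrank_eq_one.1 h1.symm)

theorem thq : ThqStmt := by
  intro r₁ r₂ N a a' c c' x x' K _ _ θ θ' e e' hN h3 hF hF' hn hn' h
  rcases Nat.eq_zero_or_pos r₁ with h0 | h0
  · subst h0
    have hr : 3 ≤ r₂ := by omega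
    have hk0 : (ex (Sum.inr ⟨0, by omega⟩ : Fa 0 r₂)) = 0 := by simp [ex]
    have hk1 : (ex (Sum.inr ⟨1, by omega⟩ : Fa 0 r₂)) = 1 := by simp [ex]
    have e0 := h (Sum.inr ⟨0, by omega⟩) (by rw [hk0]; omega)
    have e1 := h (Sum.inr ⟨1, by omega⟩) (by rw [hk1])
    have a0 := hn.2 rfl (Sum.inr ⟨0, by omega⟩) (by rw [hk0]; omega)
    have a1 := hn.2 rfl (Sum.inr ⟨1, by omega⟩) (by rw [hk1])
    have a0' := hn'.2 rfl (Sum.inr ⟨0, by omega⟩) (by rw [hk0]; omega)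
    have a1' := hn'.2 rfl (Sum.inr ⟨1, by omega⟩) (by rw [hk1])
    rw [hk0] at a0 a0'
    rw [hk1] at a1 a1'
    rw [aeval_inr, aeval_inr, a0, a0'] at e0
    rw [aeval_inr, aeval_inr, a1, a1'] at e1
    set c0 := c ⟨0, by omega⟩
    set c1 := c ⟨1, by omega⟩
    set c0' := c' ⟨0, by omega⟩
    set c1' := c' ⟨1, by omega⟩
    push_cast at e0 e1
    have hNK : (N : K) ≠ 0 := by
      have : N ≠ 0 := by omega
      exact_mod_cast this
    have h6 : 6 * (N : K) * (θ - θ') = (c1 : K) - (c0 : K) - ((c1' : K) - (c0' : K)) := by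
      linear_combination e0 - e1
    have hq : θ' = θ + (((-((c1 - c0 - (c1' - c0') : ℤ) : ℚ) / (6 * (N : ℚ)) : ℚ)) : K) := by
      push_cast
      field_simp
      linear_combination -h6
    by_contra hne
    set q : ℚ := -((c1 - c0 - (c1' - c0') : ℤ) : ℚ) / (6 * (N : ℚ)) with hqd
    have hq0 : q ≠ 0 := by
      intro hz
      apply hne
      rw [hq, hz]
      simp
    have hqK : (q : K) ≠ 0 := by exact_mod_cast hq0
    refine not_rat hF.gen (by rw [hF.deg]; omega)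
      (((c0 : ℚ) - (c0' : ℚ) - q ^ 2) / (2 * q)) ?_
    push_cast
    rw [eq_div_iff (mul_ne_zero two_ne_zero hqK)]
    rw [hq] at e0
    linear_combination -e0
  · have hk : (ex (Sum.inl ⟨0, h0⟩ : Fa r₁ r₂)) = 0 := by simp [ex]
    have e0 := h (Sum.inl ⟨0, h0⟩) (by rw [hk]; omega)
    rw [aeval_inl, aeval_inl, hn.1 h0 _ hk, hn'.1 h0 _ hk] at e0
    simpa using e0

end Pool.Agent.LRY.H95
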